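import Mathlib

/-!
# Whitman's theorem on lattice identities

If `p ≤ q` fails in some lattice (any universe), then it fails in the lattice of the equivalence
relations of some finite set. Proof by Jónsson's method (distances with values in a lattice).
-/

set_option autoImplicit false

namespace Pool.Agent.X257.Whitman

universe u

/-! ### Lattice terms -/

/-- Lattice terms in the variables `0, 1, 2, …`. -/
inductive LTerm : Type
  | var : ℕ → LTerm
  | sup : LTerm → LTerm → LTerm
  | inf : LTerm → LTerm → LTerm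

/-- The value of a lattice term. -/
def LTerm.eval {L : Type u} [Lattice L] (v : ℕ → L) : LTerm → L
  | .var n => v n
  | .sup s t => s.eval v ⊔ t.eval v
  | .inf s t => s.eval v ⊓ t.eval v

/-- The dual term. -/
def LTerm.dual : LTerm → LTerm
  | .var n => .var n
  | .sup s t => .inf s.dual t.dual
  | .inf s t => .sup s.dual t.dual

/-! ### Distances with values in a lattice -/

structure LDist (L : Type u) [Lattice L] [OrderBot L] (X : Type) where
  d : X → X → L
  self : ∀ x, d x x = ⊥
  symm : ∀ x y, d x y = d y x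
  tri : ∀ x y z, d x z ≤ d x y ⊔ d y z

section LDist

variable {L : Type u} [Lattice L] [OrderBot L]

/-- The relation `d x y ≤ c`. -/
def LDist.φ {X : Type} (D : LDist L X) (c : L) : Setoid X where
  r x y := D.d x y ≤ c
  iseqv := ⟨fun x => by rw [D.self]; exact bot_le, fun {x y} h => by rwa [D.symm],
    fun {x y z} h h' => (D.tri x y z).trans (sup_le h h')⟩

lemma eval_le_φ {X : Type} (D : LDist L X) (v : ℕ → L) (t : LTerm) :
    t.eval (fun n => D.φ (v n)) ≤ D.φ (t.eval v) := by
  induction t with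
  | var n => exact le_rfl
  | sup s t hs ht =>
    refine sup_le (hs.trans ?_) (ht.trans ?_)
    · intro x y h
      exact le_trans (h : D.d x y ≤ _) le_sup_left
    · intro x y h
      exact le_trans (h : D.d x y ≤ _) le_sup_right
  | inf s t hs ht =>
    intro x y h
    exact le_inf (hs h.1) (ht h.2)

lemma eval_mono {X X' : Type} (D : LDist L X) (D' : LDist L X') (ι : X → X')
    (hι : ∀ a b, D'.d (ι a) (ι b) = D.d a b) (v : ℕ → L) (t : LTerm) :
    t.eval (fun n => D.φ (v n)) ≤ Setoid.comap ι (t.eval (fun n => D'.φ (v n))) := by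
  induction t with
  | var n =>
    intro x y h
    change D'.d (ι x) (ι y) ≤ v n
    rw [hι]; exact h
  | sup s t hs ht =>
    refine sup_le (hs.trans ?_) (ht.trans ?_)
    · intro x y h
      exact (le_sup_left : s.eval (fun n => D'.φ (v n)) ≤ _) h
    · intro x y h
      exact (le_sup_right : t.eval (fun n => D'.φ (v n)) ≤ _) h
  | inf s t hs ht =>
    intro x y h
    exact ⟨hs h.1, ht h.2⟩

/-- Adding a point at the distance `f x` from `x`. -/
def LDist.add {X : Type} (D : LDist L X) (f : X → L) (h1 : ∀ x y, f x ≤ f y ⊔ D.d x y)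
    (h2 : ∀ x y, D.d x y ≤ f x ⊔ f y) : LDist L (Option X) where
  d a b := match a, b with
    | none, none => ⊥
    | some x, none => f x
    | none, some y => f y
    | some x, some y => D.d x y
  self a := by
    cases a with
    | none => rfl
    | some x => exact D.self x
  symm a b := by
    cases a <;> cases b <;> first | rfl | exact D.symm _ _
  tri a b c := by
    cases a <;> cases b <;> cases c
    · exact bot_le
    · exact le_sup_right
    · exact bot_le
    · rename_i b c
      change f c ≤ f b ⊔ D.d b c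
      rw [D.symm b c]
      exact h1 c b
    · exact le_sup_left
    · rename_i a c
      exact h2 a c
    · rename_i a b
      change f a ≤ D.d a b ⊔ f b
      rw [sup_comm]
      exact h1 a b
    · exact D.tri _ _ _

/-- Three points are added between `x` and `y` at distance `≤ a ⊔ b`. -/
lemma exists_three {X : Type} [Finite X] (D : LDist L X) (x y : X) (a b : L)
    (h : D.d x y ≤ a ⊔ b) :
    ∃ (X' : Type) (_ : Finite X') (D' : LDist L X') (ι : X → X') (z1 z2 z3 : X'),
      (∀ a b, D'.d (ι a) (ι b) = D.d a b) ∧ D'.d (ι x) z1 ≤ a ∧ D'.d z1 z2 ≤ b ∧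
      D'.d z2 z3 ≤ a ∧ D'.d z3 (ι y) ≤ b := by
  -- first point
  let f1 : X → L := fun u => D.d u x ⊔ a
  have k1 : ∀ u w, f1 u ≤ f1 w ⊔ D.d u w := by
    intro u w
    refine sup_le ((D.tri u w x).trans (sup_le le_sup_right ?_)) ?_
    · exact le_sup_left.trans le_sup_left
    · exact le_sup_right.trans le_sup_left
  have k1' : ∀ u w, D.d u w ≤ f1 u ⊔ f1 w := by
    intro u w
    refine (D.tri u x w).trans (sup_le (le_sup_left.trans le_sup_left) ?_)
    rw [D.symm x w]
    exact le_sup_left.trans le_sup_right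
  let D1 := D.add f1 k1 k1'
  -- second point
  let f2 : Option X → L := fun o => match o with
    | none => b
    | some u => D.d u x ⊔ (a ⊔ b)
  have k2 : ∀ u w, f2 u ≤ f2 w ⊔ D1.d u w := by
    rintro (_ | u) (_ | w)
    · exact le_sup_left
    · change b ≤ (D.d w x ⊔ (a ⊔ b)) ⊔ (D.d w x ⊔ a)
      exact (le_sup_right.trans le_sup_right).trans le_sup_left
    · change D.d u x ⊔ (a ⊔ b) ≤ b ⊔ (D.d u x ⊔ a)
      refine sup_le (le_sup_left.trans le_sup_right) (sup_le (le_sup_right.trans le_sup_right) ?_)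
      exact le_sup_left
    · change D.d u x ⊔ (a ⊔ b) ≤ (D.d w x ⊔ (a ⊔ b)) ⊔ D.d u w
      refine sup_le ((D.tri u w x).trans (sup_le le_sup_right ?_)) ?_
      · exact le_sup_left.trans le_sup_left
      · exact le_sup_right.trans le_sup_left
  have k2' : ∀ u w, D1.d u w ≤ f2 u ⊔ f2 w := by
    rintro (_ | u) (_ | w)
    · exact bot_le
    · change D.d w x ⊔ a ≤ b ⊔ (D.d w x ⊔ (a ⊔ b))
      exact (sup_le le_sup_left (le_sup_left.trans le_sup_right)).trans le_sup_right
    · change D.d u x ⊔ a ≤ (D.d u x ⊔ (a ⊔ b)) ⊔ b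
      exact (sup_le le_sup_left (le_sup_left.trans le_sup_right)).trans le_sup_left
    · change D.d u w ≤ (D.d u x ⊔ (a ⊔ b)) ⊔ (D.d w x ⊔ (a ⊔ b))
      refine (D.tri u x w).trans (sup_le (le_sup_left.trans le_sup_left) ?_)
      rw [D.symm x w]
      exact le_sup_left.trans le_sup_right
  let D2 := D1.add f2 k2 k2'
  -- third point
  let f3 : Option (Option X) → L := fun o => match o with
    | none => a
    | some none => a ⊔ b
    | some (some u) => D.d u y ⊔ b
  have hxy : ∀ u, D.d u y ≤ D.d u x ⊔ (a ⊔ b) := fun u =>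
    (D.tri u x y).trans (sup_le_sup_left h _)
  have hyx : ∀ u, D.d u x ≤ D.d u y ⊔ (a ⊔ b) := fun u =>
    (D.tri u y x).trans (sup_le_sup_left (by rw [D.symm]; exact h) _)
  have k3 : ∀ u w, f3 u ≤ f3 w ⊔ D2.d u w := by
    rintro (_ | _ | u) (_ | _ | w)
    · exact le_sup_left
    · change a ≤ (a ⊔ b) ⊔ b
      exact le_sup_left.trans le_sup_left
    · change a ≤ (D.d w y ⊔ b) ⊔ (D.d w x ⊔ (a ⊔ b))
      exact (le_sup_left.trans le_sup_right).trans le_sup_right
    · change a ⊔ b ≤ a ⊔ b
      exact le_rfl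
    · exact le_sup_left
    · change a ⊔ b ≤ (D.d w y ⊔ b) ⊔ (D.d w x ⊔ a)
      exact sup_le (le_sup_right.trans le_sup_right) (le_sup_right.trans le_sup_left)
    · change D.d u y ⊔ b ≤ a ⊔ (D.d u x ⊔ (a ⊔ b))
      exact sup_le ((hxy u).trans le_sup_right)
        ((le_sup_right.trans le_sup_right).trans le_sup_right)
    · change D.d u y ⊔ b ≤ (a ⊔ b) ⊔ (D.d u x ⊔ a)
      refine sup_le ((hxy u).trans (sup_le (le_sup_left.trans le_sup_right) le_sup_left)) ?_
      exact le_sup_right.trans le_sup_left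
    · change D.d u y ⊔ b ≤ (D.d w y ⊔ b) ⊔ D.d u w
      refine sup_le ((D.tri u w y).trans (sup_le le_sup_right ?_)) ?_
      · exact le_sup_left.trans le_sup_left
      · exact le_sup_right.trans le_sup_left
  have k3' : ∀ u w, D2.d u w ≤ f3 u ⊔ f3 w := by
    rintro (_ | _ | u) (_ | _ | w)
    · exact bot_le
    · change b ≤ a ⊔ (a ⊔ b)
      exact le_sup_right.trans le_sup_right
    · change D.d w x ⊔ (a ⊔ b) ≤ a ⊔ (D.d w y ⊔ b)
      have e : a ⊔ b ≤ a ⊔ (D.d w y ⊔ b) := sup_le le_sup_left (le_sup_right.trans le_sup_right)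
      exact sup_le ((hyx w).trans (sup_le (le_sup_left.trans le_sup_right) e)) e
    · change b ≤ (a ⊔ b) ⊔ a
      exact le_sup_right.trans le_sup_left
    · exact bot_le
    · change D.d w x ⊔ a ≤ (a ⊔ b) ⊔ (D.d w y ⊔ b)
      exact sup_le ((hyx w).trans (sup_le (le_sup_left.trans le_sup_right) le_sup_left))
        (le_sup_left.trans le_sup_left)
    · change D.d u x ⊔ (a ⊔ b) ≤ (D.d u y ⊔ b) ⊔ a
      have e : a ⊔ b ≤ (D.d u y ⊔ b) ⊔ a := sup_le le_sup_right (le_sup_right.trans le_sup_left)
      exact sup_le ((hyx u).trans (sup_le (le_sup_left.trans le_sup_left) e)) e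
    · change D.d u x ⊔ a ≤ (D.d u y ⊔ b) ⊔ (a ⊔ b)
      exact sup_le ((hyx u).trans (sup_le (le_sup_left.trans le_sup_left) le_sup_right))
        (le_sup_left.trans le_sup_right)
    · change D.d u w ≤ (D.d u y ⊔ b) ⊔ (D.d w y ⊔ b)
      refine (D.tri u y w).trans (sup_le (le_sup_left.trans le_sup_left) ?_)
      rw [D.symm y w]
      exact le_sup_left.trans le_sup_right
  let D3 := D2.add f3 k3 k3'
  refine ⟨Option (Option (Option X)), inferInstance, D3, fun u => some (some (some u)),
    some (some none), some none, none, fun _ _ => rfl, ?_, ?_, ?_, ?_⟩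
  · change D.d x x ⊔ a ≤ a
    rw [D.self]
    exact sup_le bot_le le_rfl
  · exact le_rfl
  · exact le_rfl
  · change D.d y y ⊔ b ≤ b
    rw [D.self]
    exact sup_le bot_le le_rfl

/-- If the distance of two points is at most the value of `t`, then the points are related by the
value of `t` in the lattice of equivalence relations of a larger finite space. -/
lemma exists_ext (v : ℕ → L) (t : LTerm) : ∀ (X : Type) [Finite X] (D : LDist L X) (x y : X),
    D.d x y ≤ t.eval v → ∃ (X' : Type) (_ : Finite X') (D' : LDist L X') (ι : X → X'),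
      (∀ a b, D'.d (ι a) (ι b) = D.d a b) ∧ (t.eval (fun n => D'.φ (v n))) (ι x) (ι y) := by
  induction t with
  | var n => intro X _ D x y h; exact ⟨X, inferInstance, D, id, fun _ _ => rfl, h⟩
  | inf s t hs ht =>
    intro X _ D x y h
    obtain ⟨X1, _, D1, ι1, e1, r1⟩ := hs X D x y (h.trans inf_le_left)
    obtain ⟨X2, i2, D2, ι2, e2, r2⟩ := ht X1 D1 (ι1 x) (ι1 y) (by rw [e1]; exact h.trans inf_le_right)
    refine ⟨X2, i2, D2, ι2 ∘ ι1, fun a b => by simp only [Function.comp, e2, e1], ?_, r2⟩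
    exact eval_mono D1 D2 ι2 e2 v s r1
  | sup s t hs ht =>
    intro X _ D x y h
    obtain ⟨X0, _, D0, ι0, z1, z2, z3, e0, q1, q2, q3, q4⟩ := exists_three D x y _ _ h
    obtain ⟨X1, _, D1, ι1, e1, r1⟩ := hs X0 D0 (ι0 x) z1 q1
    obtain ⟨X2, _, D2, ι2, e2, r2⟩ := ht X1 D1 (ι1 z1) (ι1 z2) (by rw [e1]; exact q2)
    obtain ⟨X3, _, D3, ι3, e3, r3⟩ := hs X2 D2 (ι2 (ι1 z2)) (ι2 (ι1 z3)) (by rw [e2, e1]; exact q3)
    obtain ⟨X4, i4, D4, ι4, e4, r4⟩ := ht X3 D3 (ι3 (ι2 (ι1 z3))) (ι3 (ι2 (ι1 (ι0 y))))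
      (by rw [e3, e2, e1]; exact q4)
    refine ⟨X4, i4, D4, ι4 ∘ ι3 ∘ ι2 ∘ ι1 ∘ ι0,
      fun a b => by simp only [Function.comp, e4, e3, e2, e1, e0], ?_⟩
    have a1 := eval_mono D3 D4 ι4 e4 v s (eval_mono D2 D3 ι3 e3 v s (eval_mono D1 D2 ι2 e2 v s r1))
    have a2 := eval_mono D3 D4 ι4 e4 v t (eval_mono D2 D3 ι3 e3 v t r2)
    have a3 := eval_mono D3 D4 ι4 e4 v s r3
    have b1 := (le_sup_left : s.eval (fun n => D4.φ (v n)) ≤ (s.sup t).eval _) a1
    have b2 := (le_sup_right : t.eval (fun n => D4.φ (v n)) ≤ (s.sup t).eval _) a2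
    have b3 := (le_sup_left : s.eval (fun n => D4.φ (v n)) ≤ (s.sup t).eval _) a3
    have b4 := (le_sup_right : t.eval (fun n => D4.φ (v n)) ≤ (s.sup t).eval _) r4
    exact Setoid.trans' _ (Setoid.trans' _ (Setoid.trans' _ b1 b2) b3) b4

end LDist

lemma eval_coe {L : Type u} [Lattice L] (v : ℕ → L) (t : LTerm) :
    t.eval (fun n => ((v n : L) : WithBot L)) = ((t.eval v : L) : WithBot L) := by
  induction t with
  | var n => rfl
  | sup s t hs ht =>
    change s.eval _ ⊔ t.eval _ = _
    rw [hs, ht]; rfl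
  | inf s t hs ht =>
    change s.eval _ ⊓ t.eval _ = _
    rw [hs, ht]; rfl

/-- Whitman: if `p ≤ q` fails in some lattice, then it fails in the lattice of the equivalence
relations of some finite set. -/
theorem whitman {L : Type u} [Lattice L] (v : ℕ → L) (p q : LTerm)
    (h : ¬ p.eval v ≤ q.eval v) :
    ∃ (X : Type) (_ : Finite X) (w : ℕ → Setoid X), ¬ p.eval w ≤ q.eval w := by
  classical
  let v' : ℕ → WithBot L := fun n => (v n : WithBot L)
  let c : WithBot L := p.eval v'
  let D : LDist (WithBot L) Bool :=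
    { d := fun x y => if x = y then ⊥ else c
      self := fun x => by simp
      symm := fun x y => by simp only [eq_comm]
      tri := fun x y z => by
        cases x <;> cases y <;> cases z <;> simp }
  obtain ⟨X, hX, D', ι, e, r⟩ := exists_ext v' p Bool D true false (by simp [D, c])
  refine ⟨X, hX, fun n => D'.φ (v' n), fun hle => h ?_⟩
  have h1 : D'.d (ι true) (ι false) ≤ q.eval v' := eval_le_φ D' v' q (hle r)
  rw [e] at h1
  have h2 : c ≤ q.eval v' := by simpa [D] using h1
  have h3 : ((p.eval v : L) : WithBot L) ≤ ((q.eval v : L) : WithBot L) := by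
    rw [← eval_coe, ← eval_coe]; exact h2
  exact WithBot.coe_le_coe.1 h3

end Pool.Agent.X257.Whitman
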